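import Pool.Agent.H22.LG.BN

set_option autoImplicit false

namespace H64.LG

open H22.LG

theorem t_DEC : S_DEC := by
  intro G _ D J hJ x hx
  have hN : Subgroup.closure J ≤ D.N :=
    (Subgroup.closure_le _).2 (fun s hs => D.sN s (hJ hs))
  have hB : ∀ b ∈ D.B, ∀ y : G, (∃ n ∈ Subgroup.closure J, y ∈ D.C n) →
      ∃ n ∈ Subgroup.closure J, b * y ∈ D.C n := by
    rintro b hb y ⟨n, hn, b1, hb1, c, hc, rfl⟩
    exact ⟨n, hn, b * b1, D.B.mul_mem hb hb1, c, hc, by group⟩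
  have hS : ∀ s ∈ J, ∀ y : G, (∃ n ∈ Subgroup.closure J, y ∈ D.C n) →
      ∃ n ∈ Subgroup.closure J, s * y ∈ D.C n := by
    rintro s hs y ⟨n, hn, b1, hb1, c, hc, rfl⟩
    obtain ⟨m, hm, b₁, hb₁, b₂, hb₂, he⟩ := D.mul s (hJ hs) n (hN hn) b1 hb1
    refine ⟨m, ?_, b₁, hb₁, b₂ * c, D.B.mul_mem hb₂ hc, ?_⟩
    · rcases hm with rfl | hm
      · exact hn
      · rw [Set.mem_singleton_iff] at hm
        rw [hm]
        exact Subgroup.mul_mem _ (Subgroup.subset_closure hs) hn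
    · calc s * (b1 * n * c) = (s * b1 * n) * c := by group
        _ = (b₁ * m * b₂) * c := by rw [he]
        _ = b₁ * m * (b₂ * c) := by group
  unfold BN.P at hx
  induction hx using Subgroup.closure_induction_left with
  | one => exact ⟨1, Subgroup.one_mem _, 1, D.B.one_mem, 1, D.B.one_mem, by group⟩
  | mul_left g hg y hy ih =>
    rcases hg with hg | hg
    · exact hB g hg y ih
    · exact hS g hg y ih
  | inv_mul_cancel g hg y hy ih =>
    rcases hg with hg | hg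
    · exact hB g⁻¹ (D.B.inv_mem hg) y ih
    · have h1 := hB (g * g)⁻¹ (D.B.inv_mem (D.ss g (hJ hg))) _ (hS g hg y ih)
      have h2 : (g * g)⁻¹ * (g * y) = g⁻¹ * y := by group
      rwa [h2] at h1

end H64.LG
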